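import Mathlib
import Pool.Agent.N860.GW.Law

set_option autoImplicit false
set_option linter.unusedSectionVars false

/-! # The law for the repunits of all bases in sieved random models -/

open MeasureTheory Filter Set
open scoped Topology

namespace Pool.Agent.N860.RU

open Pool.Agent.R528.RM Pool.Agent.N860.HL Pool.Agent.N860.GW

/-- the repunit of length `n` in base `b` -/
def Rb (b n : ℕ) : ℕ := ∑ i ∈ Finset.range n, b ^ i

lemma Rb_ge (b n : ℕ) : b ^ n ≤ Rb b (n + 1) := by
  unfold Rb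
  exact Finset.single_le_sum (f := fun i => b ^ i) (fun i _ => Nat.zero_le _) (Finset.self_mem_range_succ n)

lemma Rb_le (b n : ℕ) (hb : 2 ≤ b) : Rb b n < b ^ n := Nat.geomSum_lt hb (fun k hk => Finset.mem_range.1 hk)

lemma Rb_lt (b n : ℕ) (hb : 2 ≤ b) : Rb b n < Rb b (n + 1) := by
  unfold Rb
  rw [Finset.sum_range_succ]
  have := Nat.one_le_pow n b (by omega)
  omega

/-- no small prime divides the numbers -/
lemma Rb_coprime (y b n : ℕ) (hy : 2 ≤ y) (hn : ∀ p, p.Prime → p ≤ y → ¬ p ∣ n) :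
    ∀ p, p.Prime → p ≤ y → ¬ p ∣ Rb b n := by
  intro p hp hpy hdvd
  have : Fact p.Prime := ⟨hp⟩
  set x : ZMod p := (b : ZMod p) with hx
  have h2 : ∑ i ∈ Finset.range n, x ^ i = 0 := by
    have h3 : ((Rb b n : ℕ) : ZMod p) = 0 := (ZMod.natCast_eq_zero_iff _ _).2 hdvd
    unfold Rb at h3
    push_cast at h3
    exact h3
  have h3 : x ^ n = 1 := by
    have := geom_sum_mul x n
    rw [h2, zero_mul] at this
    exact (sub_eq_zero.1 this.symm)
  have hn0 : n ≠ 0 := by
    rintro rfl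
    exact hn 2 Nat.prime_two hy (dvd_zero 2)
  have hx0 : x ≠ 0 := by
    intro h
    rw [h, zero_pow hn0] at h3
    exact zero_ne_one h3
  have h4 : x ^ (p - 1) = 1 := ZMod.pow_card_sub_one_eq_one hx0
  have h5 : Nat.Coprime n (p - 1) := by
    refine Nat.coprime_of_dvd ?_
    intro q hq hqn hqp
    have h6 : q ≤ p - 1 := Nat.le_of_dvd (by have := hp.two_le; omega) hqp
    exact hn q hq (by omega) hqn
  have h6 : orderOf x ∣ Nat.gcd n (p - 1) := Nat.dvd_gcd (orderOf_dvd_of_pow_eq_one h3) (orderOf_dvd_of_pow_eq_one h4)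
  rw [h5, Nat.dvd_one, orderOf_eq_one_iff] at h6
  rw [h6] at h2
  simp only [one_pow, Finset.sum_const, Finset.card_range, nsmul_eq_mul, mul_one] at h2
  exact hn p hp hpy ((ZMod.natCast_eq_zero_iff _ _).1 h2)

lemma log_Rb_ratio (b : ℕ) (hb : 2 ≤ b) :
    Tendsto (fun n : ℕ => Real.log (Rb b n) / n) atTop (𝓝 (Real.log b)) := by
  have hb1 : (1 : ℝ) < b := by exact_mod_cast hb
  have hlb : 0 < Real.log b := Real.log_pos hb1
  have h1 : Tendsto (fun n : ℕ => Real.log b - Real.log b / n) atTop (𝓝 (Real.log b)) := by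
    simpa using (tendsto_const_nhds (x := Real.log b)).sub (tendsto_const_div_atTop_nhds_zero_nat (Real.log b))
  refine tendsto_of_tendsto_of_tendsto_of_le_of_le' h1 tendsto_const_nhds ?_ ?_
  · filter_upwards [eventually_ge_atTop 1] with n hn
    obtain ⟨m, rfl⟩ := Nat.exists_eq_add_of_le hn
    have hn0 : (0 : ℝ) < ((1 + m : ℕ) : ℝ) := by positivity
    rw [le_div_iff₀ hn0, sub_mul, div_mul_cancel₀ _ hn0.ne']
    have h3 : ((b ^ m : ℕ) : ℝ) ≤ (Rb b (1 + m) : ℝ) := by
      rw [add_comm 1 m]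
      exact_mod_cast Rb_ge b m
    have h4 : Real.log ((b : ℝ) ^ m) ≤ Real.log (Rb b (1 + m)) := by
      apply Real.log_le_log (by positivity)
      push_cast at h3
      exact h3
    rw [Real.log_pow] at h4
    push_cast
    linarith
  · filter_upwards [eventually_ge_atTop 1] with n hn
    obtain ⟨m, rfl⟩ := Nat.exists_eq_add_of_le hn
    have hn0 : (0 : ℝ) < ((1 + m : ℕ) : ℝ) := by positivity
    rw [div_le_iff₀ hn0]
    have h5 := (Rb_le b (1 + m) hb).le
    have h6 : 0 < Rb b (1 + m) := by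
      rw [add_comm 1 m]
      exact lt_of_lt_of_le (pow_pos (by omega) m) (Rb_ge b m)
    have h7 : Real.log (Rb b (1 + m)) ≤ Real.log ((b : ℝ) ^ (1 + m)) := by
      apply Real.log_le_log (by exact_mod_cast h6)
      exact_mod_cast h5
    rw [Real.log_pow] at h7
    linarith

/-- the product of the two densities -/
noncomputable def u (c : ℝ) (b n : ℕ) : ℝ := min 1 (c / Real.log n) * min 1 (c / Real.log (Rb b n))

lemma u_ratio (c : ℝ) (hc : 0 < c) (b : ℕ) (hb : 2 ≤ b) :
    Tendsto (fun n : ℕ => u c b n / g n) atTop (𝓝 (c ^ 2 / Real.log b)) := by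
  have hb1 : (1 : ℝ) < b := by exact_mod_cast hb
  have hlb : 0 < Real.log b := Real.log_pos hb1
  have h1 := log_Rb_ratio b hb
  have hlog : Tendsto (fun n : ℕ => Real.log (n : ℝ)) atTop atTop :=
    Real.tendsto_log_atTop.comp tendsto_natCast_atTop_atTop
  have h2 : Tendsto (fun n : ℕ => ((n : ℝ) + 3) / n) atTop (𝓝 1) := by
    have : Tendsto (fun n : ℕ => 1 + 3 / (n : ℝ)) atTop (𝓝 1) := by
      simpa using (tendsto_const_div_atTop_nhds_zero_nat (3 : ℝ)).const_add 1
    refine this.congr' ?_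
    filter_upwards [eventually_gt_atTop 0] with n hn
    have : (0 : ℝ) < n := by exact_mod_cast hn
    field_simp
  have h3 : Tendsto (fun n : ℕ => Real.log (Rb b n)) atTop atTop := by
    have k1 : Tendsto (fun n : ℕ => (Real.log (Rb b n) / n) * n) atTop atTop :=
      h1.pos_mul_atTop hlb tendsto_natCast_atTop_atTop
    refine k1.congr' ?_
    filter_upwards [eventually_gt_atTop 0] with n hn
    have : (0 : ℝ) < n := by exact_mod_cast hn
    field_simp
  have h4 : Tendsto (fun n : ℕ => c ^ 2 * ((Real.log ((n : ℝ) + 3) / Real.log n) * (((n : ℝ) + 3) / n) *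
      (Real.log (Rb b n) / n)⁻¹)) atTop (𝓝 (c ^ 2 * (1 * 1 * (Real.log b)⁻¹))) :=
    ((log3_ratio.mul h2).mul (h1.inv₀ hlb.ne')).const_mul _
  have e : c ^ 2 * (1 * 1 * (Real.log b)⁻¹) = c ^ 2 / Real.log b := by ring
  rw [e] at h4
  refine h4.congr' ?_
  filter_upwards [hlog.eventually_ge_atTop c, h3.eventually_ge_atTop c, eventually_gt_atTop 0] with n g1 g2 g3
  have hn : (0 : ℝ) < n := by exact_mod_cast g3
  have hl : 0 < Real.log n := by linarith
  have hF : 0 < Real.log (Rb b n) := by linarith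
  have h5 : c / Real.log n ≤ 1 := by rwa [div_le_one hl]
  have h6 : c / Real.log (Rb b n) ≤ 1 := by rwa [div_le_one hF]
  have h7 := log3 hn.le
  unfold u g
  rw [min_eq_right h5, min_eq_right h6]
  field_simp

/-- the two numbers -/
def RR (b : ℕ) (i : Bool) (n : ℕ) : ℕ := if i then Rb b n else n

variable {Ω : Type} {m0 : MeasurableSpace Ω} {μ : Measure Ω} [IsProbabilityMeasure μ]
  {ℱ : Filtration ℕ m0} {S : ℕ → Set Ω}

lemma prod_RR (b : ℕ) (f : ℕ → ℝ) (n : ℕ) : ∏ i : Bool, f (RR b i n) = f n * f (Rb b n) := by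
  rw [Fintype.prod_bool]
  unfold RR
  simp [mul_comm]

lemma prod_rho (y : ℕ) (hy : 2 ≤ y) (b n : ℕ) :
    rhoW (∏ p ∈ Nat.primesLE y, p) n * rhoW (∏ p ∈ Nat.primesLE y, p) (Rb b n) =
      if Nat.Coprime n (∏ p ∈ Nat.primesLE y, p) then
        u (((∏ p ∈ Nat.primesLE y, p : ℕ) : ℝ) / Nat.totient (∏ p ∈ Nat.primesLE y, p)) b n else 0 := by
  unfold rhoW u
  by_cases h : Nat.Coprime n (∏ p ∈ Nat.primesLE y, p)
  · have h2 : Nat.Coprime (Rb b n) (∏ p ∈ Nat.primesLE y, p) := by
      rw [coprime_iff] at h ⊢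
      exact Rb_coprime y b n hy h
    rw [if_pos h, if_pos h2, if_pos h]
  · rw [if_neg h, if_neg h, zero_mul]

open Classical in
theorem law (y : ℕ) (hy : 2 ≤ y) (hS : ∀ n, MeasurableSet[ℱ n] (S n))
    (hd : ∀ᵐ ω ∂μ, ∀ ε : ℝ, 0 < ε → ∀ᶠ n : ℕ in atTop,
      |dens μ ℱ S n ω - rhoW (∏ p ∈ Nat.primesLE y, p) (n + 1)| ≤ ε * rhoW (∏ p ∈ Nat.primesLE y, p) (n + 1)) :
    ∀ᵐ ω ∂μ, ∀ b : ℕ, 2 ≤ b →
      Tendsto (fun x : ℕ => ({n : ℕ | n ≤ x ∧ ω ∈ S n ∧ ω ∈ S (Rb b n)}.ncard : ℝ) / Real.log (Real.log x))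
        atTop (𝓝 ((∏ p ∈ Nat.primesLE y, (1 - 1 / (p : ℝ))⁻¹) / Real.log b)) := by
  set W := ∏ p ∈ Nat.primesLE y, p with hWdef
  have hQ : ∀ p ∈ Nat.primesLE y, p.Prime := fun p hp => (Nat.mem_primesLE.1 hp).2
  have hW : 0 < W := Finset.prod_pos fun q hq => (hQ q hq).pos
  have hφ : 0 < Nat.totient W := Nat.totient_pos.2 hW
  set c : ℝ := (W : ℝ) / Nat.totient W with hcdef
  have hW' : (0 : ℝ) < W := by exact_mod_cast hW
  have hφ' : (0 : ℝ) < Nat.totient W := by exact_mod_cast hφ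
  have hc : 0 < c := by positivity
  have hcprod : c = ∏ p ∈ Nat.primesLE y, (1 - 1 / (p : ℝ))⁻¹ := totient_prod (Nat.primesLE y) hQ
  rw [← hcprod]
  rw [ae_all_iff]
  intro b
  by_cases hb : 2 ≤ b
  swap
  · exact Eventually.of_forall fun ω h => absurd h hb
  have hb1 : (1 : ℝ) < b := by exact_mod_cast hb
  have hlb : 0 < Real.log b := Real.log_pos hb1
  -- the expected number
  have hper : Function.Periodic (fun n : ℕ => Nat.Coprime n W) W := by
    intro n
    simp only [eq_iff_iff]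
    exact Nat.coprime_add_self_left
  have hcount : (Nat.count (fun n : ℕ => Nat.Coprime n W) W : ℝ) = Nat.totient W := by
    rw [Nat.count_eq_card_filter_range, Nat.totient]
    congr 2
    ext n
    simp only [Finset.mem_filter]
    rw [Nat.coprime_comm]
  have hE : Tendsto (fun x : ℕ => (∑ n ∈ Finset.range (x + 1), ∏ i : Bool, rhoW W (RR b i n)) / Real.log (Real.log x))
      atTop (𝓝 (c / Real.log b)) := by
    have h1 := sum_loglog (fun n : ℕ => Nat.Coprime n W) W hW hper (u c b) (c ^ 2 / Real.log b) (u_ratio c hc b hb)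
    rw [hcount] at h1
    have h2 : (Nat.totient W : ℝ) / W * (c ^ 2 / Real.log b) = c / Real.log b := by
      rw [hcdef]
      field_simp
    rw [h2] at h1
    refine h1.congr fun x => ?_
    congr 1
    refine Finset.sum_congr rfl fun n _ => ?_
    rw [prod_RR, hWdef, prod_rho y hy b n]
  have hU : Tendsto (fun x : ℕ => ∑ n ∈ Finset.range x, ∏ i : Bool, rhoW W (RR b i n)) atTop atTop := by
    rw [← tendsto_add_atTop_iff_nat 1]
    have h1 := hE.pos_mul_atTop (by positivity) loglog_atTop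
    refine h1.congr' ?_
    filter_upwards [loglog_atTop.eventually_gt_atTop 0] with x gx
    field_simp
  have hFord : ∀ᶠ n in atTop, n < Rb b n := by
    filter_upwards [eventually_ge_atTop 4] with n hn
    obtain ⟨m, rfl⟩ := Nat.exists_eq_add_of_le (show 1 ≤ n by omega)
    have h1 := Rb_ge b m
    have h2 : 2 ^ m ≤ b ^ m := Nat.pow_le_pow_left hb m
    have h3 : 1 + m < 2 ^ m := by
      have h4 : 3 ≤ m := by omega
      obtain ⟨j, rfl⟩ := Nat.exists_eq_add_of_le h4
      have h5 : j < 2 ^ j := Nat.lt_two_pow_self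
      have h6 : 2 ^ (3 + j) = 8 * 2 ^ j := by rw [pow_add]; norm_num
      omega
    rw [add_comm 1 m] at *
    omega
  have h := general_final (μ := μ) hS (rhoW W) (fun n => ⟨rhoW_nonneg W n, rhoW_le W n⟩) hd
    (Finset.univ : Finset Bool) (RR b) (by
      intro i _
      cases i
      · exact Eventually.of_forall fun n => Nat.lt_succ_self n
      · exact Eventually.of_forall fun n => Rb_lt b n hb) (by
      intro i _ j _ hij
      cases i <;> cases j
      · exact absurd rfl hij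
      · left
        exact hFord
      · right
        exact hFord
      · exact absurd rfl hij) hU
  filter_upwards [h] with ω hω _
  have h1 := (hω.comp (tendsto_add_atTop_nat 1)).mul hE
  rw [one_mul] at h1
  refine h1.congr' ?_
  filter_upwards [(hU.comp (tendsto_add_atTop_nat 1)).eventually_gt_atTop 0] with x gx
  simp only [Function.comp_apply] at gx ⊢
  rw [div_mul_div_comm, mul_comm (∑ n ∈ Finset.range (x + 1), ∏ i : Bool, rhoW W (RR b i n)) (Real.log (Real.log x)),
    mul_div_mul_right _ _ gx.ne']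
  congr 3
  ext n
  simp only [Set.mem_ofPred_eq, Finset.mem_univ, true_imp_iff, Bool.forall_bool, Nat.lt_succ_iff]
  unfold RR
  simp

end Pool.Agent.N860.RU
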